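import Mathlib

set_option autoImplicit false

namespace Pool.Agent.Helper65.LZ

variable {α : Type*}

/-- The factor of length `l` of `S` which starts after the first `u` letters also occurs in `S`
at an earlier starting position (that occurrence may overlap the factor). -/
def Prev (S : List α) (u l : ℕ) : Prop := ∃ j < u, (S.drop j).take l = (S.drop u).take l

open Classical in
/-- The length of the greedy factor which starts after the first `u` letters: the least `l > 0`
such that the factor of length `l` has no earlier occurrence, and the rest of the string if there
is no such `l`. -/
noncomputable def phraseLen (S : List α) (u : ℕ) : ℕ :=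
  if h : ∃ l, 0 < l ∧ u + l ≤ S.length ∧ ¬ Prev S u l then Nat.find h else S.length - u

theorem phraseLen_pos {S : List α} {u : ℕ} (hu : u < S.length) : 0 < phraseLen S u := by
  classical
  unfold phraseLen
  split_ifs with h
  · exact (Nat.find_spec h).1
  · omega

open Classical in
/-- The number of greedy factors of `S` from position `u` on. -/
noncomputable def zsFrom (S : List α) (u : ℕ) : ℕ :=
  if h : u < S.length then 1 + zsFrom S (u + phraseLen S u) else 0
termination_by S.length - u
decreasing_by
  have := phraseLen_pos h
  omega

/-- The number of factors of the self-referencing LZ77 factorization of `S`. -/
noncomputable def zs (S : List α) : ℕ := zsFrom S 0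

end Pool.Agent.Helper65.LZ
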