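import Pool.Agent.Helper65.LZ.Defs

set_option autoImplicit false

namespace Pool.Agent.Helper65.LZ

variable {α : Type*}

/-! ### Greedy is optimal -/

/-- `S` is cut into `k` pieces between positions `u` and `v`, each a letter or with an earlier
occurrence -/
inductive Parse (S : List α) : ℕ → ℕ → ℕ → Prop
  | nil (u : ℕ) : Parse S u u 0
  | cons {u v k : ℕ} (l : ℕ) : 0 < l → u + l ≤ S.length → (l = 1 ∨ Prev S u l) →
      Parse S (u + l) v k → Parse S u v (k + 1)

theorem Parse.trans {S : List α} {a b c k l : ℕ} (h : Parse S a b k) (h' : Parse S b c l) :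
    Parse S a c (k + l) := by
  induction h with
  | nil u => simpa using h'
  | cons m h1 h2 h3 _ ih =>
    have h4 := Parse.cons m h1 h2 h3 (ih h')
    have h5 : ∀ x y : ℕ, x + 1 + y = x + y + 1 := by intros; omega
    rw [h5]
    exact h4

theorem Parse.single {S : List α} {u l : ℕ} (h1 : 0 < l) (h2 : u + l ≤ S.length)
    (h3 : l = 1 ∨ Prev S u l) : Parse S u (u + l) 1 :=
  Parse.cons l h1 h2 h3 (Parse.nil _)

theorem Prev.mono {S : List α} {u l l' : ℕ} (h : Prev S u l) (hl : l' ≤ l) : Prev S u l' := by
  obtain ⟨j, hj, h⟩ := h
  refine ⟨j, hj, ?_⟩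
  have h1 := congrArg (List.take l') h
  rwa [List.take_take, List.take_take, min_eq_left hl] at h1

theorem Prev.shift {S : List α} {u l : ℕ} (h : Prev S u l) (i : ℕ) : Prev S (u + i) (l - i) := by
  obtain ⟨j, hj, h⟩ := h
  refine ⟨j + i, by omega, ?_⟩
  have h1 := congrArg (List.drop i) h
  rwa [List.drop_take, List.drop_take, List.drop_drop, List.drop_drop] at h1

theorem zsFrom_of_lt {S : List α} {u : ℕ} (h : u < S.length) :
    zsFrom S u = 1 + zsFrom S (u + phraseLen S u) := by
  rw [zsFrom, dif_pos h]

theorem zsFrom_of_ge {S : List α} {u : ℕ} (h : S.length ≤ u) : zsFrom S u = 0 := by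
  rw [zsFrom, dif_neg (by omega)]

theorem le_phraseLen {S : List α} {u l : ℕ} (hl : u + l ≤ S.length)
    (h : ∀ l', 0 < l' → l' < l → Prev S u l') (hl0 : 0 < l) : l ≤ phraseLen S u := by
  classical
  unfold phraseLen
  split_ifs with hex
  · by_contra hlt
    push Not at hlt
    have h1 := Nat.find_spec hex
    exact h1.2.2 (h _ h1.1 hlt)
  · omega

theorem greedy_le {S : List α} {u v k : ℕ} (h : Parse S u v k) (hv : v = S.length) :
    ∀ u', u ≤ u' → zsFrom S u' ≤ k := by
  induction h with
  | nil u =>
    intro u' hu'
    rw [zsFrom_of_ge (by omega)]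
  | @cons u v k l h1 h2 h3 _ ih =>
    intro u' hu'
    by_cases hlt : u' < u + l
    · have hlen : u' < S.length := by omega
      rw [zsFrom_of_lt hlen]
      have hp : u + l - u' ≤ phraseLen S u' := by
        refine le_phraseLen (by omega) ?_ (by omega)
        intro l' hl' hl''
        rcases h3 with h3 | h3
        · omega
        · have h4 := h3.shift (u' - u)
          rw [Nat.add_sub_cancel' hu'] at h4
          exact h4.mono (by omega)
      have h5 := ih hv (u' + phraseLen S u') (by omega)
      omega
    · have := ih hv u' (by omega)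
      omega

/-! ### Run-length grammars -/

/-- `u` is generated with height `h` by letters, products and powers, all words used being in the
finite set `F` -/
inductive Has (F : Finset (List α)) : ℕ → List α → Prop
  | letter (h : ℕ) (a : α) : [a] ∈ F → Has F h [a]
  | prod {h : ℕ} {v w : List α} : Has F h v → Has F h w → v ++ w ∈ F → Has F (h + 1) (v ++ w)
  | pow {h : ℕ} {v : List α} (t : ℕ) : 0 < t → Has F h v → (List.replicate t v).flatten ∈ F →
      Has F (h + 1) (List.replicate t v).flatten

theorem Has.mono {F F' : Finset (List α)} {h h' : ℕ} {u : List α} (H : Has F h u) (hF : F ⊆ F')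
    (hh : h ≤ h') : Has F' h' u := by
  induction H generalizing h' with
  | letter h a ha => exact Has.letter _ a (hF ha)
  | prod _ _ hm ih1 ih2 =>
    obtain ⟨k, rfl⟩ := Nat.exists_eq_add_of_le' (Nat.one_le_of_lt hh)
    exact Has.prod (ih1 (by omega)) (ih2 (by omega)) (hF hm)
  | pow t ht _ hm ih =>
    obtain ⟨k, rfl⟩ := Nat.exists_eq_add_of_le' (Nat.one_le_of_lt hh)
    exact Has.pow t ht (ih (by omega)) (hF hm)

theorem Has.ne_nil {F : Finset (List α)} {h : ℕ} {u : List α} (H : Has F h u) : u ≠ [] := by
  induction H with
  | letter h a ha => simp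
  | prod _ _ _ ih1 _ => simp [ih1]
  | @pow h v t ht _ _ ih =>
    obtain ⟨s, rfl⟩ := Nat.exists_eq_add_of_le' ht
    rw [List.replicate_succ]
    simp [ih]

theorem pow_prefix {w : List α} (t : ℕ) : ∀ v, v <+: (List.replicate t w).flatten →
    ∃ t' v', v = (List.replicate t' w).flatten ++ v' ∧ v' <+: w := by
  induction t with
  | zero =>
    intro v hv
    refine ⟨0, [], ?_, List.nil_prefix⟩
    simpa using hv
  | succ t ih =>
    intro v hv
    rw [List.replicate_succ, List.flatten_cons] at hv
    by_cases hl : v.length ≤ w.length
    · exact ⟨0, v, by simp, List.prefix_of_prefix_length_le hv (List.prefix_append _ _) hl⟩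
    · obtain ⟨v2, rfl⟩ := List.prefix_of_prefix_length_le (List.prefix_append w _) hv (by omega)
      rw [List.prefix_append_right_inj] at hv
      obtain ⟨t', v', h1, h2⟩ := ih v2 hv
      exact ⟨t' + 1, v', by rw [List.replicate_succ, List.flatten_cons, h1, List.append_assoc], h2⟩

theorem replicate_succ_flatten' {w : List α} (t : ℕ) :
    (List.replicate (t + 1) w).flatten = (List.replicate t w).flatten ++ w := by
  rw [List.replicate_succ', List.flatten_append]
  simp

theorem pow_suffix {w : List α} (t : ℕ) : ∀ v, v <:+ (List.replicate t w).flatten →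
    ∃ t' v', v = v' ++ (List.replicate t' w).flatten ∧ v' <:+ w := by
  induction t with
  | zero =>
    intro v hv
    refine ⟨0, [], ?_, List.nil_suffix⟩
    simpa using hv
  | succ t ih =>
    intro v hv
    rw [replicate_succ_flatten'] at hv
    by_cases hl : v.length ≤ w.length
    · exact ⟨0, v, by simp, List.suffix_of_suffix_length_le hv (List.suffix_append _ _) hl⟩
    · obtain ⟨v2, rfl⟩ := List.suffix_of_suffix_length_le (List.suffix_append _ w) hv (by omega)
      rw [List.suffix_append_self_iff] at hv
      obtain ⟨t', v', h1, h2⟩ := ih v2 hv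
      exact ⟨t' + 1, v', by rw [replicate_succ_flatten', h1, List.append_assoc], h2⟩

open Classical in
theorem Has.of_isPrefix {F : Finset (List α)} {h : ℕ} {u : List α} (H : Has F h u) :
    ∀ v, v <+: u → v ≠ [] → ∃ E : Finset (List α), E.card ≤ 2 * h ∧ Has (F ∪ E) (h + 1) v := by
  induction H with
  | letter h a ha =>
    intro v hv hne
    have h1 : v = [a] := by
      rcases v with _ | ⟨b, v⟩
      · exact absurd rfl hne
      · rw [List.cons_prefix_cons] at hv
        obtain ⟨rfl, hv⟩ := hv
        rw [List.prefix_nil.1 hv]
    subst h1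
    exact ⟨∅, by simp, Has.letter _ a (Finset.mem_union_left _ ha)⟩
  | @prod h v1 w1 H1 _ _ ih1 ih2 =>
    intro v hv hne
    by_cases hl : v.length ≤ v1.length
    · obtain ⟨E, hE, hH⟩ := ih1 v
        (List.prefix_of_prefix_length_le hv (List.prefix_append _ _) hl) hne
      exact ⟨E, by omega, hH.mono (Finset.Subset.refl _) (by omega)⟩
    · obtain ⟨v2, rfl⟩ := List.prefix_of_prefix_length_le (List.prefix_append v1 w1) hv (by omega)
      rw [List.prefix_append_right_inj] at hv
      have hne2 : v2 ≠ [] := by
        rintro rfl
        simp at hl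
      obtain ⟨E, hE, hH⟩ := ih2 v2 hv hne2
      refine ⟨insert (v1 ++ v2) E, (Finset.card_insert_le _ _).trans (by omega), ?_⟩
      refine Has.prod ((H1.mono ?_ (by omega))) (hH.mono ?_ le_rfl) (by simp)
      · exact Finset.subset_union_left
      · exact Finset.union_subset_union_right (Finset.subset_insert _ _)
  | @pow h w t _ H1 _ ih =>
    intro v hv hne
    obtain ⟨t', v', h1, h2⟩ := pow_prefix t v hv
    by_cases hv' : v' = []
    · subst hv'
      rw [List.append_nil] at h1
      have ht' : 0 < t' := by
        rcases t' with _ | t'
        · exact absurd (by simpa using h1) hne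
        · omega
      refine ⟨{v}, (Finset.card_singleton v).le.trans (by omega), ?_⟩
      rw [h1]
      refine (Has.pow t' ht' (H1.mono Finset.subset_union_left le_rfl) (by simp)).mono
        (Finset.Subset.refl _) (by omega)
    · obtain ⟨E, hE, hH⟩ := ih v' h2 hv'
      rcases Nat.eq_zero_or_pos t' with ht' | ht'
      · subst ht'
        have h3 : v = v' := by simpa using h1
        rw [h3]
        exact ⟨E, by omega, hH.mono (Finset.Subset.refl _) (by omega)⟩
      · refine ⟨insert v (insert (List.replicate t' w).flatten E), ?_, ?_⟩
        · have h4 := Finset.card_insert_le v (insert (List.replicate t' w).flatten E)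
          have h5 := Finset.card_insert_le (List.replicate t' w).flatten E
          omega
        · have h6 : Has (F ∪ insert v (insert (List.replicate t' w).flatten E)) (h + 1)
              (List.replicate t' w).flatten :=
            Has.pow t' ht' (H1.mono Finset.subset_union_left le_rfl) (by simp)
          have h7 : Has (F ∪ insert v (insert (List.replicate t' w).flatten E)) (h + 1) v' := by
            refine hH.mono (Finset.union_subset_union_right ?_) le_rfl
            exact (Finset.subset_insert _ _).trans (Finset.subset_insert _ _)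
          have h8 := Has.prod h6 h7 (by rw [← h1]; simp)
          rwa [← h1] at h8

open Classical in
theorem Has.of_isSuffix {F : Finset (List α)} {h : ℕ} {u : List α} (H : Has F h u) :
    ∀ v, v <:+ u → v ≠ [] → ∃ E : Finset (List α), E.card ≤ 2 * h ∧ Has (F ∪ E) (h + 1) v := by
  induction H with
  | letter h a ha =>
    intro v hv hne
    have h1 : v = [a] := by
      rcases List.suffix_cons_iff.1 hv with h | h
      · exact h
      · exact absurd (List.suffix_nil.1 h) hne
    subst h1
    exact ⟨∅, by simp, Has.letter _ a (Finset.mem_union_left _ ha)⟩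
  | @prod h v1 w1 _ H2 _ ih1 ih2 =>
    intro v hv hne
    by_cases hl : v.length ≤ w1.length
    · obtain ⟨E, hE, hH⟩ := ih2 v
        (List.suffix_of_suffix_length_le hv (List.suffix_append _ _) hl) hne
      exact ⟨E, by omega, hH.mono (Finset.Subset.refl _) (by omega)⟩
    · obtain ⟨v2, rfl⟩ := List.suffix_of_suffix_length_le (List.suffix_append v1 w1) hv (by omega)
      rw [List.suffix_append_self_iff] at hv
      have hne2 : v2 ≠ [] := by
        rintro rfl
        simp at hl
      obtain ⟨E, hE, hH⟩ := ih1 v2 hv hne2
      refine ⟨insert (v2 ++ w1) E, (Finset.card_insert_le _ _).trans (by omega), ?_⟩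
      refine Has.prod (hH.mono ?_ le_rfl) ((H2.mono ?_ (by omega))) (by simp)
      · exact Finset.union_subset_union_right (Finset.subset_insert _ _)
      · exact Finset.subset_union_left
  | @pow h w t _ H1 _ ih =>
    intro v hv hne
    obtain ⟨t', v', h1, h2⟩ := pow_suffix t v hv
    by_cases hv' : v' = []
    · subst hv'
      rw [List.nil_append] at h1
      have ht' : 0 < t' := by
        rcases t' with _ | t'
        · exact absurd (by simpa using h1) hne
        · omega
      refine ⟨{v}, (Finset.card_singleton v).le.trans (by omega), ?_⟩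
      rw [h1]
      refine (Has.pow t' ht' (H1.mono Finset.subset_union_left le_rfl) (by simp)).mono
        (Finset.Subset.refl _) (by omega)
    · obtain ⟨E, hE, hH⟩ := ih v' h2 hv'
      rcases Nat.eq_zero_or_pos t' with ht' | ht'
      · subst ht'
        have h3 : v = v' := by simpa using h1
        rw [h3]
        exact ⟨E, by omega, hH.mono (Finset.Subset.refl _) (by omega)⟩
      · refine ⟨insert v (insert (List.replicate t' w).flatten E), ?_, ?_⟩
        · have h4 := Finset.card_insert_le v (insert (List.replicate t' w).flatten E)
          have h5 := Finset.card_insert_le (List.replicate t' w).flatten E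
          omega
        · have h6 : Has (F ∪ insert v (insert (List.replicate t' w).flatten E)) (h + 1)
              (List.replicate t' w).flatten :=
            Has.pow t' ht' (H1.mono Finset.subset_union_left le_rfl) (by simp)
          have h7 : Has (F ∪ insert v (insert (List.replicate t' w).flatten E)) (h + 1) v' := by
            refine hH.mono (Finset.union_subset_union_right ?_) le_rfl
            exact (Finset.subset_insert _ _).trans (Finset.subset_insert _ _)
          have h8 := Has.prod h7 h6 (by rw [← h1]; simp)
          rwa [← h1] at h8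

open Classical in
theorem Has.of_isInfix {F : Finset (List α)} {h : ℕ} {u : List α} (H : Has F h u) (v : List α)
    (hv : v <:+: u) (hne : v ≠ []) :
    ∃ E : Finset (List α), E.card ≤ 4 * h + 2 ∧ Has (F ∪ E) (h + 2) v := by
  obtain ⟨s, t, rfl⟩ := hv
  obtain ⟨E1, hE1, H1⟩ := H.of_isPrefix (s ++ v) (List.prefix_append _ _) (by simp [hne])
  obtain ⟨E2, hE2, H2⟩ := H1.of_isSuffix v (List.suffix_append _ _) hne
  refine ⟨E1 ∪ E2, (Finset.card_union_le _ _).trans (by omega), ?_⟩
  rwa [← Finset.union_assoc]

/-! ### A grammar gives a parse -/

theorem prev_of_infix {p u r : List α} (h : u <:+: p) (hu : u ≠ []) :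
    Prev (p ++ u ++ r) p.length u.length := by
  obtain ⟨s, t, rfl⟩ := h
  refine ⟨s.length, ?_, ?_⟩
  · have : 0 < u.length := List.length_pos_iff.2 hu
    simp only [List.length_append]
    omega
  · have h1 : (s ++ u ++ t ++ u ++ r).drop s.length = u ++ (t ++ u ++ r) := by
      rw [show s ++ u ++ t ++ u ++ r = s ++ (u ++ (t ++ u ++ r)) by simp]
      exact List.drop_left
    have h2 : (s ++ u ++ t ++ u ++ r).drop (s ++ u ++ t).length = u ++ r := by
      rw [show s ++ u ++ t ++ u ++ r = (s ++ u ++ t) ++ (u ++ r) by simp]
      exact List.drop_left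
    rw [h1, h2, List.take_left, List.take_left]

open Classical in
/-- the words of `F`, not longer than `u`, which occur in `p ++ u` but not in `p` -/
noncomputable def fresh (F : Finset (List α)) (p u : List α) : Finset (List α) :=
  F.filter fun x => x.length ≤ u.length ∧ x <:+: p ++ u ∧ ¬ x <:+: p

theorem mem_fresh {F : Finset (List α)} {p u x : List α} :
    x ∈ fresh F p u ↔ x ∈ F ∧ x.length ≤ u.length ∧ x <:+: p ++ u ∧ ¬ x <:+: p := by
  simp [fresh]

theorem parse_of_has {F : Finset (List α)} {h : ℕ} {u : List α} (H : Has F h u) :
    ∀ p r S : List α, S = p ++ u ++ r →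
    ∃ k, Parse S p.length (p.length + u.length) k ∧ k ≤ 1 + (fresh F p u).card := by
  classical
  induction H with
  | letter h a ha =>
    intro p r S hS
    refine ⟨1, Parse.single (by simp) (by simp [hS]) (Or.inl (by simp)), by omega⟩
  | @prod h v w Hv Hw hm ih1 ih2 =>
    intro p r S hS
    by_cases hin : v ++ w <:+: p
    · refine ⟨1, Parse.single ?_ (by simp only [hS, List.length_append]; omega) (Or.inr ?_), by omega⟩
      · have := List.length_pos_iff.2 Hv.ne_nil
        simp only [List.length_append]
        omega
      · rw [hS]
        exact prev_of_infix hin (by simp [Hv.ne_nil])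
    · obtain ⟨k1, hk1, hk1'⟩ := ih1 p (w ++ r) S (by rw [hS]; simp)
      obtain ⟨k2, hk2, hk2'⟩ := ih2 (p ++ v) r S (by rw [hS]; simp)
      refine ⟨k1 + k2, ?_, ?_⟩
      · have h1 := hk1.trans (by rwa [List.length_append] at hk2)
        rwa [List.length_append, ← add_assoc]
      · have hv0 := List.length_pos_iff.2 Hv.ne_nil
        have hw0 := List.length_pos_iff.2 Hw.ne_nil
        have hd : Disjoint (fresh F p v) (fresh F (p ++ v) w) := by
          rw [Finset.disjoint_left]
          intro x hx hx'
          rw [mem_fresh] at hx hx'
          exact hx'.2.2.2 hx.2.2.1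
        have hnot : v ++ w ∉ fresh F p v ∪ fresh F (p ++ v) w := by
          intro hx
          rw [Finset.mem_union, mem_fresh, mem_fresh, List.length_append] at hx
          rcases hx with hx | hx
          · have := hx.2.1
            omega
          · have := hx.2.1
            omega
        have hsub : insert (v ++ w) (fresh F p v ∪ fresh F (p ++ v) w) ⊆ fresh F p (v ++ w) := by
          intro x hx
          rw [Finset.mem_insert, Finset.mem_union, mem_fresh, mem_fresh] at hx
          rw [mem_fresh, List.length_append]
          rcases hx with rfl | hx | hx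
          · exact ⟨hm, by simp, (List.suffix_append _ _).isInfix, hin⟩
          · refine ⟨hx.1, by have := hx.2.1; omega, ?_, hx.2.2.2⟩
            refine hx.2.2.1.trans ?_
            rw [← List.append_assoc]
            exact (List.prefix_append _ _).isInfix
          · refine ⟨hx.1, by have := hx.2.1; omega, ?_, ?_⟩
            · rw [← List.append_assoc]
              exact hx.2.2.1
            · intro h4
              exact hx.2.2.2 (h4.trans (List.prefix_append _ _).isInfix)
        have h5 := Finset.card_le_card hsub
        rw [Finset.card_insert_of_notMem hnot, Finset.card_union_of_disjoint hd] at h5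
        omega
  | @pow h v t ht Hv hm ih =>
    intro p r S hS
    have hv0 := List.length_pos_iff.2 Hv.ne_nil
    obtain ⟨s, rfl⟩ := Nat.exists_eq_add_of_le' ht
    rcases Nat.eq_zero_or_pos s with hs | hs
    · subst hs
      have h1 : (List.replicate (0 + 1) v).flatten = v := by simp
      rw [h1] at hS ⊢
      exact ih p r S hS
    · by_cases hin : (List.replicate (s + 1) v).flatten <:+: p
      · refine ⟨1, Parse.single ?_ (by simp only [hS, List.length_append]; omega) (Or.inr ?_),
          by omega⟩
        · rw [List.replicate_succ, List.flatten_cons, List.length_append]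
          omega
        · rw [hS]
          refine prev_of_infix hin ?_
          rw [List.replicate_succ, List.flatten_cons]
          simp [Hv.ne_nil]
      · have hlen : (List.replicate (s + 1) v).flatten.length =
            v.length + (List.replicate s v).flatten.length := by
          rw [List.replicate_succ, List.flatten_cons, List.length_append]
        have hspos : 0 < (List.replicate s v).flatten.length := by
          obtain ⟨s', rfl⟩ := Nat.exists_eq_add_of_le' hs
          rw [List.replicate_succ, List.flatten_cons, List.length_append]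
          omega
        obtain ⟨k1, hk1, hk1'⟩ := ih p ((List.replicate s v).flatten ++ r) S (by
          rw [hS, List.replicate_succ, List.flatten_cons]; simp)
        refine ⟨k1 + 1, ?_, ?_⟩
        · rw [hlen, ← add_assoc]
          refine hk1.trans (Parse.single hspos ?_ (Or.inr ?_))
          · rw [hS, List.length_append, List.length_append, hlen]
            omega
          · refine ⟨p.length, by omega, ?_⟩
            have h2 : S.drop p.length = (List.replicate s v).flatten ++ (v ++ r) := by
              rw [hS, replicate_succ_flatten',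
                show p ++ ((List.replicate s v).flatten ++ v) ++ r =
                  p ++ ((List.replicate s v).flatten ++ (v ++ r)) by simp]
              exact List.drop_left
            have h3 : S.drop (p.length + v.length) = (List.replicate s v).flatten ++ r := by
              rw [← List.length_append, hS, List.replicate_succ, List.flatten_cons,
                show p ++ (v ++ (List.replicate s v).flatten) ++ r =
                  (p ++ v) ++ ((List.replicate s v).flatten ++ r) by simp]
              exact List.drop_left
            rw [h2, h3, List.take_left, List.take_left]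
        · have hnot : (List.replicate (s + 1) v).flatten ∉ fresh F p v := by
            intro hx
            rw [mem_fresh] at hx
            have := hx.2.1
            omega
          have hsub : insert (List.replicate (s + 1) v).flatten (fresh F p v) ⊆
              fresh F p (List.replicate (s + 1) v).flatten := by
            intro x hx
            rw [Finset.mem_insert, mem_fresh] at hx
            rw [mem_fresh]
            rcases hx with rfl | hx
            · exact ⟨hm, le_rfl, (List.suffix_append _ _).isInfix, hin⟩
            · refine ⟨hx.1, by have := hx.2.1; omega, ?_, hx.2.2.2⟩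
              refine hx.2.2.1.trans ?_
              rw [List.replicate_succ, List.flatten_cons, ← List.append_assoc]
              exact (List.prefix_append _ _).isInfix
          have h5 := Finset.card_le_card hsub
          rw [Finset.card_insert_of_notMem hnot] at h5
          exact (Nat.add_le_add_right hk1' 1).trans (by rw [add_assoc]; exact Nat.add_le_add_left h5 1)

theorem zs_le_of_has {F : Finset (List α)} {h : ℕ} {u : List α} (H : Has F h u) :
    zs u ≤ 1 + F.card := by
  obtain ⟨k, hk, hk'⟩ := parse_of_has H [] [] u (by simp)
  have h1 := greedy_le hk (by simp) 0 (Nat.zero_le _)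
  have h2 : (fresh F [] u).card ≤ F.card :=
    Finset.card_le_card fun x hx => (mem_fresh.1 hx).1
  unfold zs
  omega

/-! ### A greedy factor is an initial part of a power -/

theorem periodic {w : List α} (hw : w ≠ []) : ∀ (m : ℕ) (x : List α),
    (w ++ x).take m = x.take m → ∃ t, 0 < t ∧ x.take m <+: (List.replicate t w).flatten := by
  intro m
  induction m using Nat.strong_induction_on with
  | _ m ih =>
    intro x hx
    by_cases hm : m ≤ w.length
    · refine ⟨1, one_pos, ?_⟩
      rw [← hx, List.take_append_of_le_length hm]
      simpa using List.take_prefix m w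
    · have h0 := List.length_pos_iff.2 hw
      -- `x.take m = w ++ x.take (m - |w|)`
      have h1 : (w ++ x).take m = w ++ x.take (m - w.length) := by
        rw [List.take_append, List.take_of_length_le (by omega)]
      have h2 : (w ++ x).take (m - w.length) = x.take (m - w.length) := by
        have h3 := congrArg (List.take (m - w.length)) hx
        rwa [List.take_take, List.take_take, min_eq_left (Nat.sub_le _ _)] at h3
      obtain ⟨t, _, ht2⟩ := ih (m - w.length) (by omega) x h2
      refine ⟨t + 1, by omega, ?_⟩
      rw [← hx, h1, List.replicate_succ, List.flatten_cons, List.prefix_append_right_inj]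
      exact ht2

theorem phraseLen_le {S : List α} {u : ℕ} (hu : u ≤ S.length) :
    u + phraseLen S u ≤ S.length := by
  classical
  unfold phraseLen
  split_ifs with h
  · exact (Nat.find_spec h).2.1
  · omega

theorem prev_of_lt_phraseLen {S : List α} {u l : ℕ} (hu : u ≤ S.length) (hl0 : 0 < l)
    (hl : l < phraseLen S u) : Prev S u l := by
  classical
  have h0 := phraseLen_le hu
  by_contra hc
  have hex : ∃ l, 0 < l ∧ u + l ≤ S.length ∧ ¬ Prev S u l := ⟨l, hl0, by omega, hc⟩
  have h1 : phraseLen S u = Nat.find hex := by
    unfold phraseLen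
    rw [dif_pos hex]
  rw [h1] at hl
  exact Nat.find_min hex hl ⟨hl0, by omega, hc⟩

open Classical in
theorem Has.step {F : Finset (List α)} {h : ℕ} {S : List α} {u : ℕ}
    (hu : u < S.length) (H : Has F h (S.take u)) :
    ∃ E : Finset (List α), E.card ≤ 4 * h + 8 ∧ Has (F ∪ E) (h + 5) (S.take (u + phraseLen S u)) := by
  obtain ⟨m, hm⟩ := Nat.exists_eq_add_of_le' (Nat.one_le_of_lt (phraseLen_pos hu))
  have hle := phraseLen_le hu.le
  rw [hm] at hle ⊢
  have hlt : u + m < S.length := by omega
  have hlast : S.take (u + (m + 1)) = S.take (u + m) ++ [S[u + m]] := by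
    rw [← add_assoc, List.take_succ_eq_append_getElem hlt]
  rcases Nat.eq_zero_or_pos m with h0 | h0
  · subst h0
    refine ⟨{[S[u + 0]], S.take u ++ [S[u + 0]]}, ?_, ?_⟩
    · refine (Finset.card_insert_le _ _).trans ?_
      rw [Finset.card_singleton]
      omega
    · rw [hlast]
      refine (Has.prod (h := h) (H.mono Finset.subset_union_left le_rfl) (Has.letter _ _ ?_) ?_).mono
        (Finset.Subset.refl _) (by omega)
      · simp
      · simp
  · obtain ⟨j, hj, hjm⟩ := prev_of_lt_phraseLen hu.le h0 (by omega : m < phraseLen S u)
    -- the period word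
    obtain ⟨w, hw⟩ : ∃ w, w = (S.take u).drop j := ⟨_, rfl⟩
    have hwlen : w.length = u - j := by
      rw [hw, List.length_drop, List.length_take]
      omega
    have hwne : w ≠ [] := by
      intro h1
      rw [h1] at hwlen
      simp at hwlen
      omega
    have hSj : S.drop j = w ++ S.drop u := by
      have h1 : S = S.take u ++ S.drop u := (List.take_append_drop _ _).symm
      conv_lhs => rw [h1]
      rw [List.drop_append_of_le_length (by rw [List.length_take]; omega), hw]
    rw [hSj] at hjm
    obtain ⟨t, ht0, ht⟩ := periodic hwne m (S.drop u) hjm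
    obtain ⟨g, hg⟩ : ∃ g, g = (S.drop u).take m := ⟨_, rfl⟩
    rw [← hg] at ht
    have hglen : g.length = m := by
      rw [hg, List.length_take, List.length_drop]
      omega
    have hgne : g ≠ [] := by
      intro h1
      rw [h1] at hglen
      simp at hglen
      omega
    have hSg : S.take (u + m) = S.take u ++ g := by
      rw [hg, List.take_add]
    obtain ⟨E1, hE1, H1⟩ := H.of_isSuffix w (by rw [hw]; exact List.drop_suffix _ _) hwne
    have H2 : Has (F ∪ E1 ∪ {(List.replicate t w).flatten}) (h + 1 + 1)
        (List.replicate t w).flatten :=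
      Has.pow t ht0 (H1.mono Finset.subset_union_left le_rfl) (by simp)
    obtain ⟨E3, hE3, H3⟩ := H2.of_isPrefix g ht hgne
    obtain ⟨c, hc⟩ : ∃ c, c = S[u + m] := ⟨_, rfl⟩
    rw [← hc] at hlast
    rw [hlast, hSg, List.append_assoc]
    refine ⟨E1 ∪ {(List.replicate t w).flatten} ∪ E3 ∪
      {[c], g ++ [c], S.take u ++ (g ++ [c])}, ?_, ?_⟩
    · have c1 := Finset.card_union_le (E1 ∪ {(List.replicate t w).flatten} ∪ E3)
        {[c], g ++ [c], S.take u ++ (g ++ [c])}
      have c2 := Finset.card_union_le (E1 ∪ {(List.replicate t w).flatten}) E3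
      have c3 := Finset.card_union_le E1 {(List.replicate t w).flatten}
      have c4 := Finset.card_insert_le [c] {g ++ [c], S.take u ++ (g ++ [c])}
      have c5 := Finset.card_insert_le (g ++ [c]) {S.take u ++ (g ++ [c])}
      rw [Finset.card_singleton] at c3 c5
      omega
    · have hF : F ∪ (E1 ∪ {(List.replicate t w).flatten} ∪ E3 ∪
          {[c], g ++ [c], S.take u ++ (g ++ [c])}) =
          (F ∪ E1 ∪ {(List.replicate t w).flatten} ∪ E3) ∪
          {[c], g ++ [c], S.take u ++ (g ++ [c])} := by
        simp only [Finset.union_assoc]
      rw [hF]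
      have G1 : Has ((F ∪ E1 ∪ {(List.replicate t w).flatten} ∪ E3) ∪
          {[c], g ++ [c], S.take u ++ (g ++ [c])}) (h + 3) g :=
        H3.mono Finset.subset_union_left le_rfl
      have G2 : Has ((F ∪ E1 ∪ {(List.replicate t w).flatten} ∪ E3) ∪
          {[c], g ++ [c], S.take u ++ (g ++ [c])}) (h + 3) [c] :=
        Has.letter _ _ (by simp)
      have G3 : Has ((F ∪ E1 ∪ {(List.replicate t w).flatten} ∪ E3) ∪
          {[c], g ++ [c], S.take u ++ (g ++ [c])}) (h + 4) (g ++ [c]) :=
        Has.prod G1 G2 (by simp)
      refine Has.prod (H.mono ?_ (by omega)) G3 (by simp)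
      intro x hx
      simp [hx]

theorem Has.iterate {S : List α} : ∀ (k : ℕ) (F : Finset (List α)) (h u : ℕ), 0 < u →
    u ≤ S.length → zsFrom S u = k → Has F h (S.take u) →
    ∃ F' : Finset (List α), F'.card ≤ F.card + (k * (4 * h + 8) + 10 * (k * (k - 1))) ∧
      Has F' (h + 5 * k) S := by
  classical
  intro k
  induction k with
  | zero =>
    intro F h u _ hu hz H
    refine ⟨F, by simp, ?_⟩
    have h1 : u = S.length := by
      by_contra hne
      rw [zsFrom_of_lt (by omega)] at hz
      omega
    rw [h1, List.take_length] at H
    simpa using H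
  | succ k ih =>
    intro F h u hu0 hu hz H
    have h1 : u < S.length := by
      by_contra hne
      rw [zsFrom_of_ge (by omega)] at hz
      omega
    rw [zsFrom_of_lt h1] at hz
    obtain ⟨E, hE, HE⟩ := H.step h1
    obtain ⟨F', hF', HF'⟩ := ih (F ∪ E) (h + 5) (u + phraseLen S u) (by omega)
      (phraseLen_le hu) (by omega) HE
    refine ⟨F', ?_, ?_⟩
    · have h2 := Finset.card_union_le F E
      have h3 : 4 * h + 8 + (k * (4 * (h + 5) + 8) + 10 * (k * (k - 1))) =
          (k + 1) * (4 * h + 8) + 10 * ((k + 1) * (k + 1 - 1)) := by
        rcases k with _ | k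
        · simp
        · simp only [Nat.add_sub_cancel]
          ring
      omega
    · rwa [show h + 5 * (k + 1) = h + 5 + 5 * k by ring]

theorem phraseLen_zero {S : List α} (hS : S ≠ []) : phraseLen S 0 = 1 := by
  have h0 := List.length_pos_iff.2 hS
  have h1 := phraseLen_pos h0
  by_contra hne
  obtain ⟨j, hj, _⟩ := prev_of_lt_phraseLen (Nat.zero_le _) one_pos
    (by omega : 1 < phraseLen S 0)
  omega

/-- Every factor `T` of `S` satisfies `zs T ≤ 10 * zs S ^ 2`. -/
theorem zs_infix {S T : List α} (hT : T <:+: S) : zs T ≤ 10 * zs S ^ 2 := by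
  classical
  by_cases hTne : T = []
  · have h0 : zs T = 0 := by
      rw [hTne]
      exact zsFrom_of_ge (by simp)
    omega
  · have hSne : S ≠ [] := by
      rintro rfl
      exact hTne (List.infix_nil.1 hT)
    have hlen := List.length_pos_iff.2 hSne
    have hz : zs S = 1 + zsFrom S 1 := by
      have h1 := zsFrom_of_lt hlen
      rw [phraseLen_zero hSne] at h1
      simpa [zs] using h1
    obtain ⟨k, hk⟩ : ∃ k, k = zsFrom S 1 := ⟨_, rfl⟩
    have hS1 : S.take 1 = [S[0]] := by
      rcases S with _ | ⟨a, S⟩
      · exact absurd rfl hSne
      · simp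
    have H0 : Has {[S[0]]} 0 (S.take 1) := by
      rw [hS1]
      exact Has.letter _ _ (by simp)
    obtain ⟨F, hF, HF⟩ := Has.iterate k {[S[0]]} 0 1 one_pos hlen hk.symm H0
    obtain ⟨E, hE, HE⟩ := HF.of_isInfix T hT hTne
    have h1 := zs_le_of_has HE
    have h2 := Finset.card_union_le F E
    rw [hz, ← hk]
    rw [Finset.card_singleton] at hF
    have h3 : 1 + (1 + (k * (4 * 0 + 8) + 10 * (k * (k - 1))) + (4 * (0 + 5 * k) + 2)) ≤
        10 * (1 + k) ^ 2 := by
      rcases k with _ | k
      · simp
      · simp only [Nat.add_sub_cancel]
        nlinarith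
    omega

end Pool.Agent.Helper65.LZ
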